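import Mathlib
import Pool.Agent.R254.SigmaFam
import Pool.Agent.R254.SigmaFour

set_option autoImplicit false

namespace Pool.Agent.Results.MP_757d88_an.EvenCounterexample

/-- The class `Σ`: `f` is holomorphic and injective on `|z| > 1` and has there the Laurent
expansion `f z = z + ∑ b k * z ^ (-k)`; here `b` is the sequence of its coefficients. -/
structure InSigma (f : ℂ → ℂ) (b : ℕ → ℂ) : Prop where
  holo : DifferentiableOn ℂ f {z : ℂ | 1 < ‖z‖}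
  inj : Set.InjOn f {z : ℂ | 1 < ‖z‖}
  laurent : ∀ z : ℂ, 1 < ‖z‖ → HasSum (fun k : ℕ => b k * (z⁻¹) ^ k) (f z - z)

theorem four : ∃ (f : ℂ → ℂ) (b : ℕ → ℂ), InSigma f b ∧ (2:ℝ) / 5 < ‖b 4‖ := by
  obtain ⟨f, b, h1, h2, h3, h4⟩ := Pool.Agent.R254.sigma_four
  refine ⟨f, b, ⟨h1, h2, h3⟩, ?_⟩
  have h : ((2:ℝ) / 5) ^ 2 < ‖b 4‖ ^ 2 := by
    rw [← Complex.normSq_eq_norm_sq, h4, Complex.normSq_mk]
    norm_num
  exact lt_of_pow_lt_pow_left₀ 2 (norm_nonneg _) h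

theorem family (m : ℕ) (hm : 3 ≤ m) : ∃ (f : ℂ → ℂ) (b : ℕ → ℂ), InSigma f b ∧
    b (3 * m - 1) = -(1 / (m : ℂ)) * (5 / 6 - 1 / (2 * (m : ℂ)) + 1 / (6 * (m : ℂ) ^ 2)) ∧
    (2:ℝ) / (((3 * m - 1 : ℕ) : ℝ) + 1) < ‖b (3 * m - 1)‖ := by
  obtain ⟨f, b, h1, h2, h3, h4⟩ := Pool.Agent.R254.sigma_family (m := m) (by omega)
  refine ⟨f, b, ⟨h1, h2, h3⟩, h4, ?_⟩
  have hmR : (3:ℝ) ≤ m := by exact_mod_cast hm
  have hm0 : (0:ℝ) < m := by linarith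
  have hcast : (((3 * m - 1 : ℕ) : ℝ) + 1) = 3 * m := by
    have h5 : ((3 * m - 1 + 1 : ℕ) : ℝ) = ((3 * m : ℕ) : ℝ) := by
      congr 1; omega
    push_cast at h5
    linarith
  have hb : b (3 * m - 1) = ((-((1 / (m:ℝ)) * (5 / 6 - 1 / (2 * (m : ℝ)) + 1 / (6 * (m : ℝ) ^ 2))) : ℝ) : ℂ) := by
    rw [h4]; push_cast; ring
  have hpos : (2:ℝ) / (3 * m) < (1 / (m:ℝ)) * (5 / 6 - 1 / (2 * (m : ℝ)) + 1 / (6 * (m : ℝ) ^ 2)) := by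
    have e : (1 / (m:ℝ)) * (5 / 6 - 1 / (2 * (m : ℝ)) + 1 / (6 * (m : ℝ) ^ 2)) - 2 / (3 * m) =
        (m ^ 2 - 3 * m + 1) / (6 * (m:ℝ) ^ 3) := by
      field_simp
      ring
    have h6 : 0 < (m ^ 2 - 3 * m + 1) / (6 * (m:ℝ) ^ 3) := by
      apply div_pos _ (by positivity)
      nlinarith
    linarith
  rw [hcast, hb, Complex.norm_real, Real.norm_eq_abs, abs_neg]
  exact lt_of_lt_of_le hpos (le_abs_self _)

/-- Disproof of the conjectured bound `|b_n| ≤ 2/(n+1)` for even `n ≥ 4` in the class `Σ`: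
it fails already for `n = 4`, and it fails for every index `n = 3m-1` with `m ≥ 3`
(which is even for odd `m`: `8, 14, 20, …`), with an explicit coefficient. -/
theorem result :
    (∃ (f : ℂ → ℂ) (b : ℕ → ℂ), InSigma f b ∧ (2:ℝ) / 5 < ‖b 4‖) ∧
    (∀ m : ℕ, 3 ≤ m → ∃ (f : ℂ → ℂ) (b : ℕ → ℂ), InSigma f b ∧
      b (3 * m - 1) = -(1 / (m : ℂ)) * (5 / 6 - 1 / (2 * (m : ℂ)) + 1 / (6 * (m : ℂ) ^ 2)) ∧
      (2:ℝ) / (((3 * m - 1 : ℕ) : ℝ) + 1) < ‖b (3 * m - 1)‖) ∧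
    ¬ (∀ n : ℕ, Even n → 4 ≤ n → ∀ (f : ℂ → ℂ) (b : ℕ → ℂ), InSigma f b →
      ‖b n‖ ≤ (2:ℝ) / ((n : ℝ) + 1)) := by
  refine ⟨four, family, ?_⟩
  intro h
  obtain ⟨f, b, hf, hb⟩ := four
  have := h 4 (by decide) le_rfl f b hf
  norm_num at this
  linarith

end Pool.Agent.Results.MP_757d88_an.EvenCounterexample
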